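import Pool.Agent.helper60.Fin.SU4a
import Pool.Agent.helper18.FinB

/-!
# `SU(4)/diag(zA, z, z⁻³)` does not admit a positively curved invariant reversible Finsler metric
-/

set_option backward.isDefEq.respectTransparency false

noncomputable section

namespace Pool.Agent.Helper93.Fin

open scoped ContDiff Matrix

attribute [local instance] Matrix.linftyOpNormedRing Matrix.linftyOpNormedAlgebra

namespace SU4

theorem isReductive : IsReductive G H m := by
  obtain ⟨P, hP⟩ := exists_P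
  exact isReductive_of H_le mem_gg mem_hh hP Ad_m

/-! ### The invariant form -/

/-- `Re tr (X Y*)` -/
def Qf (X Y : Mat) : ℝ := (X * star Y).trace.re

theorem Qf_add_left (X X' Y : Mat) : Qf (X + X') Y = Qf X Y + Qf X' Y := by
  simp [Qf, add_mul]

theorem Qf_add_right (X Y Y' : Mat) : Qf X (Y + Y') = Qf X Y + Qf X Y' := by
  simp [Qf, mul_add]

theorem Qf_smul_left (c : ℝ) (X Y : Mat) : Qf (c • X) Y = c * Qf X Y := by
  rw [Qf, smul_mul_assoc, trace_smul_mat]
  simp [Qf]

theorem Qf_smul_right (c : ℝ) (X Y : Mat) : Qf X (c • Y) = c * Qf X Y := by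
  rw [Qf, star_smul_mat, mul_smul_comm, trace_smul_mat]
  simp [Qf]

theorem Qf_zero_left (Y : Mat) : Qf 0 Y = 0 := by simp [Qf]

theorem Qf_sub_right (X Y Y' : Mat) : Qf X (Y - Y') = Qf X Y - Qf X Y' := by
  simp [Qf, mul_sub]

/-- invariance -/
theorem Qf_inv {Z : Mat} (hZ : star Z = -Z) (X Y : Mat) : Qf ⁅Z, X⁆ Y = - Qf X ⁅Z, Y⁆ := by
  rw [Qf, Qf, ← Complex.neg_re]
  congr 1
  rw [Ring.lie_def, Ring.lie_def, star_sub, star_mul, star_mul, hZ, sub_mul, mul_sub,
    Matrix.trace_sub, Matrix.trace_sub]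
  have h1 : (Z * X * star Y).trace = (X * (star Y * Z)).trace := by
    rw [mul_assoc, Matrix.trace_mul_comm, mul_assoc]
  rw [h1]
  simp only [mul_neg, neg_mul, Matrix.trace_neg, ← mul_assoc]
  ring

theorem Qf_mk (T : Matrix (Fin 2) (Fin 2) ℂ) (α : ℝ) (w : ℂ) (X : Matrix (Fin 2) (Fin 2) ℂ) :
    Qf (mk 0 0 T) (mk α w X) = 2 * (T * star X).trace.re := by
  rw [Qf, Matrix.trace, Fintype.sum_sum_type, Matrix.trace]
  simp [mk, Matrix.mul_apply, Fin.sum_univ_two, Matrix.star_apply]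
  ring

theorem Qf_m_hh {z : Mat} (hz : z ∈ m) {Y : Mat} (hY : Y ∈ hh) : Qf z Y = 0 := by
  obtain ⟨α, w, X, rfl⟩ := hz
  obtain ⟨S, θ, h1, h2, rfl⟩ := hY
  rw [Matrix.trace, Fin.sum_univ_two] at h2
  have h2' := congrArg Complex.im h2
  simp at h2'
  rw [Qf, Matrix.trace, Fintype.sum_sum_type]
  simp [mk, hmk, Matrix.mul_apply, Fin.sum_univ_two, Matrix.star_apply, Matrix.diagonal]
  linear_combination α * h2'

theorem Qf_P {P : Mat →L[ℝ] m} (hR : RedData gg hh m P) {z : Mat} (hz : z ∈ m) {X : Mat}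
    (hX : X ∈ gg) : Qf z (P X) = Qf z X := by
  have h1 := Qf_m_hh hz (hR.res X hX)
  rw [Qf_sub_right] at h1
  linarith

theorem mk00 (Y : Matrix (Fin 2) (Fin 2) ℂ) : mk 0 0 Y = Matrix.fromBlocks 0 Y (-star Y) 0 := by
  ext i j : 2
  rcases i with i | i <;> rcases j with j | j <;> fin_cases i <;> fin_cases j <;> simp [mk]

theorem comm_mk {Y T : Matrix (Fin 2) (Fin 2) ℂ} (hY : star Y = Y) (hT : star T = T)
    (h : Y * T = T * Y) : ⁅mk 0 0 Y, mk 0 0 T⁆ = 0 := by
  rw [Ring.lie_def, mk00, mk00, Matrix.fromBlocks_multiply, Matrix.fromBlocks_multiply, hY, hT,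
    Matrix.neg_mul, Matrix.neg_mul, Matrix.mul_neg, Matrix.mul_neg, h]
  simp

/-- an off-diagonal matrix whose bracket with `mk 0 0 1` is orthogonal to `hh` is Hermitian -/
theorem herm_of {B : Matrix (Fin 2) (Fin 2) ℂ}
    (hB : ∀ Z ∈ hh, Qf (mk 0 0 1) ⁅Z, mk 0 0 B⁆ = 0) : star B = B := by
  have key : ∀ (S : Matrix (Fin 2) (Fin 2) ℂ) (θ : ℝ), star S = -S →
      S.trace = 2 * θ * Complex.I →
      (S * B - B * Matrix.diagonal ![θ * Complex.I, -3 * θ * Complex.I]).trace.re = 0 := by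
    intro S θ h1 h2
    have h3 := hB (hmk S θ) ⟨S, θ, h1, h2, rfl⟩
    have h00 := congrFun (congrFun h1 0) 0
    have h01 := congrFun (congrFun h1 0) 1
    have h10 := congrFun (congrFun h1 1) 0
    have h11 := congrFun (congrFun h1 1) 1
    simp only [Matrix.star_apply, Matrix.neg_apply, Complex.star_def] at h00 h01 h10 h11
    have h4 : ⁅hmk S θ, mk 0 0 B⁆ = mk 0 0 (S * B - B * Matrix.diagonal
        ![θ * Complex.I, -3 * θ * Complex.I]) := by
      rw [Ring.lie_def, hmk, mk, mk, Matrix.fromBlocks_multiply, Matrix.fromBlocks_multiply]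
      ext i j : 2
      rcases i with i | i <;> rcases j with j | j <;> fin_cases i <;> fin_cases j <;>
        simp [Matrix.mul_apply, Fin.sum_univ_two, Matrix.star_apply, h00, h01, h10, h11,
          Matrix.vecMul_diagonal, map_ofNat] <;> ring
    rw [h4, Qf_mk, one_mul] at h3
    have h5 : (star (S * B - B * Matrix.diagonal
        ![θ * Complex.I, -3 * θ * Complex.I])).trace.re = (S * B - B * Matrix.diagonal
        ![θ * Complex.I, -3 * θ * Complex.I]).trace.re := by
      rw [Matrix.star_eq_conjTranspose, Matrix.trace_conjTranspose]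
      simp
    rw [h5] at h3
    linarith
  have k1 := key !![Complex.I, 0; 0, -Complex.I] 0
    (by ext i j; fin_cases i <;> fin_cases j <;> simp [Matrix.star_apply])
    (by simp [Matrix.trace, Fin.sum_univ_two])
  have k2 := key !![0, 1; -1, 0] 0
    (by ext i j; fin_cases i <;> fin_cases j <;> simp [Matrix.star_apply])
    (by simp [Matrix.trace, Fin.sum_univ_two])
  have k3 := key !![0, Complex.I; Complex.I, 0] 0
    (by ext i j; fin_cases i <;> fin_cases j <;> simp [Matrix.star_apply])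
    (by simp [Matrix.trace, Fin.sum_univ_two])
  have k4 := key !![Complex.I, 0; 0, Complex.I] 1
    (by ext i j; fin_cases i <;> fin_cases j <;> simp [Matrix.star_apply])
    (by simp [Matrix.trace, Fin.sum_univ_two]; ring)
  simp [Matrix.trace, Fin.sum_univ_two, Matrix.mul_apply, Matrix.vecMul, dotProduct]
    at k1 k2 k3 k4
  ext i j
  fin_cases i <;> fin_cases j
  · apply Complex.ext
    · simp [Matrix.star_apply]
    · simp [Matrix.star_apply]
      linarith
  · apply Complex.ext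
    · simp [Matrix.star_apply]
      linarith
    · simp [Matrix.star_apply]
      linarith
  · apply Complex.ext
    · simp [Matrix.star_apply]
      linarith
    · simp [Matrix.star_apply]
      linarith
  · apply Complex.ext
    · simp [Matrix.star_apply]
    · simp [Matrix.star_apply]
      linarith

/-! ### The critical point -/

/-- `X ↦ mk 0 0 X` -/
def io : Matrix (Fin 2) (Fin 2) ℂ →L[ℝ] m := LinearMap.toContinuousLinearMap
  { toFun := fun X => ⟨mk 0 0 X, mk_mem _ _ _⟩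
    map_add' := by
      intro X Y
      apply Subtype.ext
      rw [Submodule.coe_add]
      ext i j : 2
      rcases i with i | i <;> rcases j with j | j <;> fin_cases i <;> fin_cases j <;>
        simp [mk] <;> ring
    map_smul' := by
      intro c X
      apply Subtype.ext
      rw [RingHom.id_apply, Submodule.coe_smul]
      ext i j : 2
      rcases i with i | i <;> rcases j with j | j <;> fin_cases i <;> fin_cases j <;>
        simp [mk] }

theorem io_coe (X : Matrix (Fin 2) (Fin 2) ℂ) : ((io X : m) : Mat) = mk 0 0 X := rfl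

theorem io_eq_zero {X : Matrix (Fin 2) (Fin 2) ℂ} (h : io X = 0) : X = 0 := by
  have h1 : mk 0 0 X = 0 := congrArg Subtype.val h
  ext i j
  have := congrFun (congrFun h1 (Sum.inl i)) (Sum.inr j)
  simpa [mk] using this

/-- real part of the trace -/
def rtr : Matrix (Fin 2) (Fin 2) ℂ →L[ℝ] ℝ := LinearMap.toContinuousLinearMap
  { toFun := fun X => X.trace.re
    map_add' := by intro X Y; simp
    map_smul' := by intro c X; simp }

theorem rtr_apply (X : Matrix (Fin 2) (Fin 2) ℂ) : rtr X = X.trace.re := rfl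

theorem exists_crit {L : m → ℝ} (hs : ContDiffOn ℝ ∞ L {0}ᶜ)
    (hh : ∀ (c : ℝ) (u : m), L (c • u) = c ^ 2 * L u) (hp : ∀ u : m, u ≠ 0 → 0 < L u) :
    ∃ X₀ : Matrix (Fin 2) (Fin 2) ℂ, X₀ ≠ 0 ∧ ∃ c : ℝ, c ≠ 0 ∧
      ∀ X, D1 L (io X₀) (io X) = c * X.trace.re := by
  set E := Matrix (Fin 2) (Fin 2) ℂ
  have hfd : FiniteDimensional ℝ E := inferInstance
  have hprop : ProperSpace E := FiniteDimensional.proper_real E
  have hio : ∀ X : E, X ≠ 0 → io X ≠ 0 := fun X hX h => hX (io_eq_zero h)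
  have hS : IsCompact (Metric.sphere (0 : E) 1) := isCompact_sphere 0 1
  have hne : (Metric.sphere (0 : E) 1).Nonempty := by
    refine ⟨‖(1 : E)‖⁻¹ • (1 : E), ?_⟩
    rw [mem_sphere_zero_iff_norm, norm_smul, norm_inv, norm_norm]
    exact inv_mul_cancel₀ (norm_ne_zero_iff.2 one_ne_zero)
  have hSne : ∀ X ∈ Metric.sphere (0 : E) 1, X ≠ 0 := by
    intro X hX h0
    rw [mem_sphere_zero_iff_norm, h0, norm_zero] at hX
    exact zero_ne_one hX
  have hLc : ∀ X : E, X ≠ 0 → ContinuousAt (fun X : E => L (io X)) X := by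
    intro X hX
    exact (continuousAt_of_ne hs (hio X hX)).comp io.continuous.continuousAt
  have hcont : ContinuousOn (fun X : E => rtr X ^ 2 / L (io X)) (Metric.sphere (0 : E) 1) := by
    intro X hX
    refine ContinuousAt.continuousWithinAt ?_
    refine ContinuousAt.div (rtr.continuous.pow 2).continuousAt (hLc X (hSne X hX)) ?_
    exact (hp _ (hio X (hSne X hX))).ne'
  obtain ⟨X₀, hX₀, hmax⟩ := hS.exists_isMaxOn hne hcont
  set M := rtr X₀ ^ 2 / L (io X₀) with hM
  have hX0 : X₀ ≠ 0 := hSne X₀ hX₀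
  have hL0 : 0 < L (io X₀) := hp _ (hio X₀ hX0)
  have hle : ∀ X : E, rtr X ^ 2 ≤ M * L (io X) := by
    intro X
    rcases eq_or_ne X 0 with h0 | h0
    · rw [h0, map_zero, map_zero]
      have h1 := hh 0 0
      rw [zero_smul] at h1
      rw [h1]
      simp
    · have hn : 0 < ‖X‖ := norm_pos_iff.2 h0
      have hmem : ‖X‖⁻¹ • X ∈ Metric.sphere (0 : E) 1 := by
        rw [mem_sphere_zero_iff_norm, norm_smul, norm_inv, norm_norm]
        exact inv_mul_cancel₀ hn.ne'
      have h1 := hmax hmem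
      simp only [Set.mem_ofPred_eq] at h1
      rw [map_smul, map_smul, hh, smul_eq_mul, mul_pow,
        mul_div_mul_left _ _ (pow_ne_zero 2 (inv_ne_zero hn.ne')),
        div_le_iff₀ (hp _ (hio X h0))] at h1
      exact h1
  have hMpos : 0 < M := by
    by_contra hcon
    have h1 := hle 1
    have h2 : 0 < L (io 1) := hp _ (hio 1 one_ne_zero)
    have h3 : rtr (1 : E) = 2 := by
      rw [rtr_apply, Matrix.trace_one]; simp
    rw [h3] at h1
    nlinarith
  have hr0 : rtr X₀ ≠ 0 := by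
    intro h0
    rw [hM, h0] at hMpos
    simp at hMpos
  refine ⟨X₀, hX0, 2 * rtr X₀ / M, div_ne_zero (mul_ne_zero two_ne_zero hr0) hMpos.ne', ?_⟩
  have hmin : IsLocalMin (fun X : E => M * L (io X) - rtr X ^ 2) X₀ := by
    refine Filter.Eventually.of_forall fun X => ?_
    have h1 : M * L (io X₀) - rtr X₀ ^ 2 = 0 := by
      rw [hM, div_mul_cancel₀ _ hL0.ne', sub_self]
    change M * L (io X₀) - rtr X₀ ^ 2 ≤ M * L (io X) - rtr X ^ 2
    rw [h1]
    linarith [hle X]
  have hd1 : HasFDerivAt (fun X : E => L (io X)) ((fderiv ℝ L (io X₀)).comp io) X₀ :=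
    (differentiableAt_of_ne hs (hio X₀ hX0)).hasFDerivAt.comp X₀ io.hasFDerivAt
  have hd2 : HasFDerivAt (fun X : E => rtr X ^ 2) ((2 * rtr X₀) • rtr) X₀ := by
    have := (rtr.hasFDerivAt (x := X₀)).pow 2
    convert! this using 1
    ext X
    simp
  have hd3 := (hd1.const_mul M).fun_sub hd2
  have h0 := hmin.hasFDerivAt_eq_zero hd3
  intro X
  have h1 := congrArg (fun T : E →L[ℝ] ℝ => T X) h0
  simp only [_root_.sub_apply, _root_.smul_apply, ContinuousLinearMap.comp_apply,
    _root_.zero_apply, smul_eq_mul] at h1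
  rw [D1]
  rw [rtr_apply X] at h1
  field_simp
  linarith

/-! ### The reflection -/

/-- the reflection `mk α w X ↦ mk (-α) (-w) X` -/
def tau : m →L[ℝ] m := LinearMap.toContinuousLinearMap
  { toFun := fun v => (2 : ℝ) • io (v : Mat).toBlocks₁₂ - v
    map_add' := by
      intro v w
      have : ((v + w : m) : Mat).toBlocks₁₂ = (v : Mat).toBlocks₁₂ + (w : Mat).toBlocks₁₂ := rfl
      rw [this, map_add, smul_add]
      abel
    map_smul' := by
      intro c v
      have : ((c • v : m) : Mat).toBlocks₁₂ = c • (v : Mat).toBlocks₁₂ := rfl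
      rw [this, map_smul, RingHom.id_apply, smul_sub, smul_comm] }

theorem tau_apply (v : m) : tau v = (2 : ℝ) • io (v : Mat).toBlocks₁₂ - v := rfl

theorem toBlocks_io (X : Matrix (Fin 2) (Fin 2) ℂ) : ((io X : m) : Mat).toBlocks₁₂ = X := by
  rw [io_coe, mk, Matrix.toBlocks_fromBlocks₁₂]

theorem tau_io (X : Matrix (Fin 2) (Fin 2) ℂ) : tau (io X) = io X := by
  rw [tau_apply, toBlocks_io, two_smul, add_sub_cancel_right]

theorem tau_tau (v : m) : tau (tau v) = v := by
  have h1 : ((tau v : m) : Mat).toBlocks₁₂ = (v : Mat).toBlocks₁₂ := by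
    have h2 : ((tau v : m) : Mat).toBlocks₁₂ =
        (2 : ℝ) • ((io (v : Mat).toBlocks₁₂ : m) : Mat).toBlocks₁₂ - (v : Mat).toBlocks₁₂ := rfl
    rw [h2, toBlocks_io, two_smul, add_sub_cancel_right]
  rw [tau_apply (tau v), h1, tau_apply, sub_sub_cancel]

theorem tau_coe (α : ℝ) (w : ℂ) (X : Matrix (Fin 2) (Fin 2) ℂ) (h : mk α w X ∈ m) :
    ((tau ⟨mk α w X, h⟩ : m) : Mat) = mk (-α) (-w) X := by
  rw [tau_apply, Submodule.coe_sub, Submodule.coe_smul, io_coe]
  ext i j : 2
  rcases i with i | i <;> rcases j with j | j <;> fin_cases i <;> fin_cases j <;>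
    simp [mk, Matrix.toBlocks₁₂] <;> ring

theorem Qf_tau (T : Matrix (Fin 2) (Fin 2) ℂ) (v : m) :
    Qf (mk 0 0 T) (tau v) = Qf (mk 0 0 T) v := by
  obtain ⟨_, ⟨α, w, X, rfl⟩⟩ := v
  rw [tau_coe, Qf_mk, Qf_mk]

/-- `Q(T, ·)` as a functional -/
def Qc (T : Mat) : m →L[ℝ] ℝ := LinearMap.toContinuousLinearMap
  { toFun := fun v => Qf T v
    map_add' := fun v w => by rw [Submodule.coe_add, Qf_add_right]
    map_smul' := fun c v => by rw [Submodule.coe_smul, Qf_smul_right]; rfl }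

theorem Qc_apply (T : Mat) (v : m) : Qc T v = Qf T v := rfl

theorem Lag_tau {F : Mat → ℝ} {P : Mat →L[ℝ] m} (hR : RedData gg hh m P)
    (hF : InvFinsler G H m F) (v : m) : Lag m F (tau v) = Lag m F v := by
  have hss : dg (-1) 1 * dg (-1) 1 = 1 := by
    rw [dg, Matrix.fromBlocks_multiply, ← Matrix.fromBlocks_one]
    congr 1
    · simp
    · simp
    · simp
    · ext i j
      fin_cases i <;> fin_cases j <;> simp
  have hk : (⟨dg (-1) 1, dg (-1) 1, hss, hss⟩ : Matˣ) ∈ H :=
    ⟨-1, 1, by simp, by rw [Matrix.det_neg]; simp, by simp, rfl⟩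
  have h1 : Lag m F (-(tau v)) = Lag m F v := by
    refine Lag_Ad mem_gg hR hF hk v (-(tau v)) ?_
    obtain ⟨_, ⟨α, w, X, rfl⟩⟩ := v
    rw [Adj, adj_eq (A := -1) (z := 1) (by simp) (by rw [Matrix.det_neg]; simp) (by simp) rfl,
      conj_mk (-1) 1 (by simp) (by simp), Submodule.coe_neg, tau_coe]
    have hdiag : (Matrix.diagonal ![star (1 : ℂ), (1 : ℂ) ^ 3]) = 1 := by
      ext i j
      fin_cases i <;> fin_cases j <;> simp
    rw [hdiag, mul_one]
    ext i j : 2
    rcases i with i | i <;> rcases j with j | j <;> fin_cases i <;> fin_cases j <;>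
      simp [mk]
  have h2 := Lag_smul mem_gg hR hF (-1) (tau v)
  rw [neg_one_smul] at h2
  rw [← h1, h2]
  ring

theorem D1_tau {L : m → ℝ} (hs : ContDiffOn ℝ ∞ L {0}ᶜ) (hτ : ∀ v, L (tau v) = L v) {u : m}
    (hu : u ≠ 0) (z : m) : D1 L (tau u) (tau z) = D1 L u z := by
  have hu' : tau u ≠ 0 := by
    intro h
    apply hu
    rw [← tau_tau u, h, map_zero]
  have h1 : HasFDerivAt (fun v => L (tau v)) ((fderiv ℝ L (tau u)).comp tau) u :=
    (differentiableAt_of_ne hs hu').hasFDerivAt.comp u tau.hasFDerivAt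
  have h2 : (fun v => L (tau v)) = L := funext hτ
  rw [h2] at h1
  have h3 := h1.fderiv
  rw [D1, D1, h3]
  rfl

theorem D2_tau {L : m → ℝ} (hs : ContDiffOn ℝ ∞ L {0}ᶜ) (hτ : ∀ v, L (tau v) = L v) {u : m}
    (hu : u ≠ 0) (a b : m) : D2 L (tau u) (tau a) (tau b) = D2 L u a b := by
  have hu' : tau u ≠ 0 := by
    intro h
    apply hu
    rw [← tau_tau u, h, map_zero]
  have h1 : HasFDerivAt (fun v => D1 L (tau v) (tau a))
      ((fderiv ℝ (fun z => D1 L z (tau a)) (tau u)).comp tau) u :=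
    (differentiableAt_of_ne (D1_smooth hs (tau a)) hu').hasFDerivAt.comp u tau.hasFDerivAt
  have h2 : (fun v => D1 L v a) =ᶠ[nhds u] (fun v => D1 L (tau v) (tau a)) := by
    filter_upwards [eventually_ne' hu] with v hv
    rw [D1_tau hs hτ hv]
  have h3 := (h1.congr_of_eventuallyEq h2).fderiv
  rw [D2, D2, h3]
  rfl

theorem trace_self_eq_zero {X : Matrix (Fin 2) (Fin 2) ℂ} (h : (X * star X).trace.re = 0) :
    X = 0 := by
  rw [Matrix.trace, Fin.sum_univ_two] at h
  simp only [Matrix.diag_apply, Matrix.mul_apply, Fin.sum_univ_two, Matrix.star_apply,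
    Complex.add_re, Complex.star_def, Complex.mul_conj, Complex.ofReal_re] at h
  have h0 := fun i j => Complex.normSq_nonneg (X i j)
  ext i j
  have : Complex.normSq (X i j) = 0 := by
    fin_cases i <;> fin_cases j
    · simp only [Fin.zero_eta, Fin.isValue]; linarith [h0 0 0, h0 0 1, h0 1 0, h0 1 1]
    · simp only [Fin.zero_eta, Fin.isValue, Fin.mk_one]
      linarith [h0 0 0, h0 0 1, h0 1 0, h0 1 1]
    · simp only [Fin.zero_eta, Fin.isValue, Fin.mk_one]
      linarith [h0 0 0, h0 0 1, h0 1 0, h0 1 1]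
    · simp only [Fin.isValue, Fin.mk_one]; linarith [h0 0 0, h0 0 1, h0 1 0, h0 1 1]
  simpa using this

theorem exists_T {Y : Matrix (Fin 2) (Fin 2) ℂ} (hY : star Y = Y) :
    ∃ T : Matrix (Fin 2) (Fin 2) ℂ, star T = T ∧ Y * T = T * Y ∧ ∀ r : ℝ, T ≠ r • 1 := by
  by_cases h : ∃ r : ℝ, Y = r • 1
  · obtain ⟨r, rfl⟩ := h
    refine ⟨!![1, 0; 0, -1], ?_, ?_, ?_⟩
    · ext i j
      fin_cases i <;> fin_cases j <;> simp [Matrix.star_apply]
    · simp
    · intro r h
      have h1 := congrFun (congrFun h 0) 0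
      have h2 := congrFun (congrFun h 1) 1
      simp at h1 h2
      rw [← h1] at h2
      norm_num at h2
  · push Not at h
    exact ⟨Y, hY, rfl, h⟩

theorem not_admitsPositive : ¬ AdmitsPositive G H m := by
  rintro ⟨F, hF, hpos⟩
  obtain ⟨P, hR⟩ := exists_P
  have hL := minkData_of mem_gg mem_hh hR hF
  have hhom := Lag_smul mem_gg hR hF
  have hs := hL.smooth
  have hτ := Lag_tau hR hF
  set L := Lag m F with hLdef
  obtain ⟨Y, hY0, c, hc, hcrit⟩ := exists_crit hs hhom (fun u hu => Lag_pos hF hu)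
  set u : m := io Y with hudef
  have hu : u ≠ 0 := fun h => hY0 (io_eq_zero h)
  have hτu : tau u = u := tau_io Y
  have hggm : ∀ z : m, (z : Mat) ∈ gg := fun z => m_le_gg z.2
  have hstar : ∀ z : m, star (z : Mat) = -z := fun z => (hggm z).1
  have hx0 : mk 0 0 (1 : Matrix (Fin 2) (Fin 2) ℂ) ∈ m := mk_mem _ _ _
  -- the gradient
  have hD1 : ∀ z : m, D1 L u z = c / 2 * Qf (mk 0 0 1) z := by
    intro z
    have h1 : D1 L u (tau z) = D1 L u z := by
      have := D1_tau hs hτ hu z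
      rwa [hτu] at this
    have h2 : D1 L u (z + tau z) = 2 * D1 L u z := by
      rw [D1_add hs hu, h1]; ring
    have h3 : z + tau z = (2 : ℝ) • io (z : Mat).toBlocks₁₂ := by
      rw [tau_apply]; abel
    rw [h3, D1_smul hs hu, hcrit] at h2
    obtain ⟨_, ⟨α, w, X, rfl⟩⟩ := z
    rw [Qf_mk, one_mul, Matrix.star_eq_conjTranspose, Matrix.trace_conjTranspose]
    have h4 : (mk α w X).toBlocks₁₂ = X := by rw [mk, Matrix.toBlocks_fromBlocks₁₂]
    rw [h4] at h2
    simp only [Complex.star_def, Complex.conj_re]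
    linarith
  -- `Y` is Hermitian
  have hYs : star Y = Y := by
    apply herm_of
    intro Z hZ
    have h1 := hL.inv Z hZ u hu
    rw [hD1, Qf_P hR hx0 (gg_lie _ (hh_le_gg hZ) _ (hggm u))] at h1
    rcases mul_eq_zero.1 h1 with h2 | h2
    · exact absurd h2 (div_ne_zero hc two_ne_zero)
    · exact h2
  obtain ⟨T, hTs, hYT, hTr⟩ := exists_T hYs
  have hζ : mk 0 0 T ∈ m := mk_mem _ _ _
  have huζ : ⁅(u : Mat), mk 0 0 T⁆ = 0 := comm_mk hYs hTs hYT
  have huξ : ⁅(u : Mat), mk 0 0 1⁆ = 0 := comm_mk hYs (star_one _) (by simp)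
  obtain ⟨b₀, hb₀⟩ := D2_solve hL hu (Qc (mk 0 0 T))
  set B := (b₀ : Mat).toBlocks₁₂ with hB
  set b : m := io B with hbdef
  have hb : ∀ w : m, D2 L u b w = Qf (mk 0 0 T) w := by
    intro w
    have h1 : D2 L u (tau b₀) w = Qf (mk 0 0 T) w := by
      have h2 := D2_tau hs hτ hu b₀ (tau w)
      rw [hτu, tau_tau, hb₀, Qc_apply, Qf_tau] at h2
      exact h2
    have h2 : (2 : ℝ) • b = b₀ + tau b₀ := by
      rw [tau_apply, hbdef, hB]; abel
    have h3 : D2 L u ((2 : ℝ) • b) w = 2 * Qf (mk 0 0 T) w := by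
      rw [h2, D2_add hs hu, hb₀, h1, Qc_apply]; ring
    rw [D2_smul hs hu] at h3
    linarith
  -- `B` is Hermitian
  have hBs : star B = B := by
    apply herm_of
    intro Z hZ
    have h1 := inv2 hR hL hZ hu b
    have h2 : D2 L u (P ⁅Z, (u : Mat)⁆) b = 0 := by
      rw [D2_symm hs hu, hb, Qf_P hR hζ (gg_lie _ (hh_le_gg hZ) _ (hggm u)),
        show ⁅Z, (u : Mat)⁆ = -⁅(u : Mat), Z⁆ by rw [Ring.lie_def, Ring.lie_def, neg_sub], Qf]
      have h3 := Qf_inv (hstar u) (mk 0 0 T) Z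
      rw [huζ, Qf_zero_left] at h3
      rw [star_neg, mul_neg, Matrix.trace_neg, Complex.neg_re]
      rw [Qf] at h3
      linarith
    rw [h2, hD1, Qf_P hR hx0 (gg_lie _ (hh_le_gg hZ) _ (hggm b))] at h1
    have h4 : c / 2 * Qf (mk 0 0 1) ⁅Z, (b : Mat)⁆ = 0 := by linarith
    rcases mul_eq_zero.1 h4 with h5 | h5
    · exact absurd h5 (div_ne_zero hc two_ne_zero)
    · exact h5
  have hbξ : ⁅(b : Mat), mk 0 0 1⁆ = 0 := comm_mk hBs (star_one _) (by simp)
  have hη : ∀ z : m, D1 L u (P ⁅(u : Mat), (z : Mat)⁆) = 0 := by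
    intro z
    have h3 := Qf_inv (hstar u) (mk 0 0 1) z
    rw [huξ, Qf_zero_left] at h3
    rw [hD1, Qf_P hR hx0 (gg_lie _ (hggm u) _ (hggm z))]
    have : Qf (mk 0 0 1) ⁅(u : Mat), (z : Mat)⁆ = 0 := by linarith
    rw [this, mul_zero]
  have hbX : ∀ X ∈ gg, D1 L u (P ⁅(b : Mat), X⁆) = 0 := by
    intro X hX
    have h3 := Qf_inv (hstar b) (mk 0 0 1) X
    rw [hbξ, Qf_zero_left] at h3
    rw [hD1, Qf_P hR hx0 (gg_lie _ (hggm b) _ hX)]
    have : Qf (mk 0 0 1) ⁅(b : Mat), X⁆ = 0 := by linarith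
    rw [this, mul_zero]
  have hD20 : ∀ z : m, D2 L u 0 z = 0 := by
    intro z
    have := D2_smul hs hu 0 (0 : m) z
    rw [zero_smul, zero_mul] at this
    exact this
  have hd : ∀ z : m, D2 L u 0 z =
      - D2 L u b (P ⁅(u : Mat), (z : Mat)⁆) - D1 L u (P ⁅(b : Mat), (z : Mat)⁆) := by
    intro z
    have h3 := Qf_inv (hstar u) (mk 0 0 T) z
    rw [huζ, Qf_zero_left] at h3
    rw [hD20, hb, Qf_P hR hζ (gg_lie _ (hggm u) _ (hggm z)), hbX _ (hggm z)]
    linarith
  have hRf := Rform_equil hR hL hu b hη hd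
  rw [hbX _ (gg_lie _ (hggm u) _ (hggm b)), zero_add, add_zero] at hRf
  have hnn : 0 ≤ D2 L u (P ⁅(u : Mat), (b : Mat)⁆) (P ⁅(u : Mat), (b : Mat)⁆) := by
    rcases eq_or_ne (P ⁅(u : Mat), (b : Mat)⁆) 0 with h0 | h0
    · rw [h0, hD20]
    · exact (hL.pos u hu _ h0).le
  have hneg : Rform P L u b ≤ 0 := by
    rw [hRf]; linarith
  -- linear independence
  have hind : LinearIndependent ℝ ![u, b] := by
    rw [LinearIndependent.pair_iff]
    intro s t hst
    have h1 : ∀ z : m, s * (c / 2) * Qf (mk 0 0 1) z + t * Qf (mk 0 0 T) z = 0 := by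
      intro z
      have h2 : D2 L u (s • u + t • b) z = 0 := by rw [hst, hD20]
      rw [D2_add hs hu, D2_smul hs hu, D2_smul hs hu, euler2 hs hhom hu, hD1, hb] at h2
      linarith
    set K : Matrix (Fin 2) (Fin 2) ℂ := (s * (c / 2)) • (1 : Matrix (Fin 2) (Fin 2) ℂ) + t • T
      with hK
    have h2 : (K * star K).trace.re = 0 := by
      have h3 := h1 (io K)
      rw [io_coe, Qf_mk, Qf_mk, one_mul] at h3
      have h4 : (K * star K).trace.re = s * (c / 2) * (star K).trace.re +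
          t * (T * star K).trace.re := by
        have h5 : K * star K = ((s * (c / 2)) • (1 : Matrix (Fin 2) (Fin 2) ℂ) + t • T) *
            star K := by rw [← hK]
        rw [h5, add_mul, smul_mul_assoc, smul_mul_assoc, one_mul, Matrix.trace_add,
          Matrix.trace_smul, Matrix.trace_smul]
        simp
      rw [h4]
      linarith
    have h3 := trace_self_eq_zero h2
    have ht : t = 0 := by
      by_contra ht
      apply hTr (-(t⁻¹ * (s * (c / 2))))
      have h4 : t • T = -((s * (c / 2)) • (1 : Matrix (Fin 2) (Fin 2) ℂ)) :=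
        eq_neg_of_add_eq_zero_right (hK ▸ h3)
      have h5 : T = t⁻¹ • (t • T) := by rw [smul_smul, inv_mul_cancel₀ ht, one_smul]
      rw [h5, h4, smul_neg, smul_smul, neg_smul]
    rw [ht, zero_smul, add_zero] at hK
    rw [hK] at h3
    have h4 : s * (c / 2) = 0 := by
      by_contra h5
      have h6 := congrFun (congrFun h3 0) 0
      simp at h6
      rcases h6 with h6 | h6
      · exact h5 (by rw [h6, zero_mul])
      · exact hc h6
    refine ⟨?_, ht⟩
    rcases mul_eq_zero.1 h4 with h5 | h5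
    · exact h5
    · exact absurd h5 (div_ne_zero hc two_ne_zero)
  have h1 := hpos u b hind
  rw [flag_pos_iff mem_gg mem_hh hR hF hind] at h1
  linarith

end SU4

end Pool.Agent.Helper93.Fin
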