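import Pool.Agent.helper60.Fin.SU4a1
import Pool.Agent.helper18.FinAdj

/-!
# Lie algebras of `SU(4)` and of `H = {diag(zA, z, z⁻³)}`, reductive decomposition
-/

set_option backward.isDefEq.respectTransparency false

noncomputable section

namespace Pool.Agent.Helper93.Fin

open scoped ContDiff Matrix

attribute [local instance] Matrix.linftyOpNormedRing Matrix.linftyOpNormedAlgebra

namespace SU4

theorem star_smul_mat (c : ℝ) (X : Mat) : star (c • X) = c • star X := by
  ext i j
  simp [Matrix.star_apply]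

theorem trace_smul_mat (c : ℝ) (X : Mat) : (c • X).trace = c * X.trace := by
  rw [Matrix.trace_smul]; simp

/-- the Lie algebra of `SU(4)` -/
def gg : Submodule ℝ Mat where
  carrier := {X | star X = -X ∧ X.trace = 0}
  zero_mem' := by simp
  add_mem' := by
    rintro X Y ⟨h1, h2⟩ ⟨k1, k2⟩
    exact ⟨by rw [star_add, h1, k1]; abel, by rw [Matrix.trace_add, h2, k2, add_zero]⟩
  smul_mem' := by
    rintro c X ⟨h1, h2⟩
    exact ⟨by rw [star_smul_mat, h1, smul_neg], by rw [trace_smul_mat, h2, mul_zero]⟩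

/-- block matrices of the Lie algebra of `H` -/
def hmk (S : Matrix (Fin 2) (Fin 2) ℂ) (θ : ℝ) : Mat :=
  Matrix.fromBlocks S 0 0 (Matrix.diagonal ![θ * Complex.I, -3 * θ * Complex.I])

/-- the Lie algebra of `H` -/
def hh : Submodule ℝ Mat where
  carrier := {X | ∃ (S : Matrix (Fin 2) (Fin 2) ℂ) (θ : ℝ), star S = -S ∧
    S.trace = 2 * θ * Complex.I ∧ X = hmk S θ}
  zero_mem' := ⟨0, 0, by simp, by simp, by
    ext i j : 2
    rcases i with i | i <;> rcases j with j | j <;> fin_cases i <;> fin_cases j <;>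
      simp [hmk]⟩
  add_mem' := by
    rintro _ _ ⟨S, θ, h1, h2, rfl⟩ ⟨T, φ, k1, k2, rfl⟩
    refine ⟨S + T, θ + φ, by rw [star_add, h1, k1]; abel, ?_, ?_⟩
    · rw [Matrix.trace_add, h2, k2]; push_cast; ring
    · ext i j : 2
      rcases i with i | i <;> rcases j with j | j <;> fin_cases i <;> fin_cases j <;>
        simp [hmk] <;> ring
  smul_mem' := by
    rintro c _ ⟨S, θ, h1, h2, rfl⟩
    refine ⟨c • S, c * θ, ?_, ?_, ?_⟩
    · have : star (c • S) = c • star S := by
        ext i j
        simp [Matrix.star_apply]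
      rw [this, h1, smul_neg]
    · rw [Matrix.trace_smul, h2]; simp; ring
    · ext i j : 2
      rcases i with i | i <;> rcases j with j | j <;> fin_cases i <;> fin_cases j <;>
        simp [hmk] <;> ring

theorem mem_gg_iff (X : Mat) : X ∈ gg ↔ star X = -X ∧ X.trace = 0 := Iff.rfl

theorem mem_hh_iff (X : Mat) : X ∈ hh ↔ ∃ (S : Matrix (Fin 2) (Fin 2) ℂ) (θ : ℝ), star S = -S ∧
    S.trace = 2 * θ * Complex.I ∧ X = hmk S θ := Iff.rfl

theorem star_exp_mat (X : Mat) : star (NormedSpace.exp X) = NormedSpace.exp (star X) :=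
  NormedSpace.star_exp X

theorem mem_gg (X : Mat) : X ∈ gg ↔ X ∈ lieAlg G := by
  rw [mem_gg_iff]
  constructor
  · rintro ⟨h1, h2⟩ t
    have h3 : NormedSpace.exp (-(t • X)) * NormedSpace.exp (t • X) = 1 := exp_neg_mul (t • X)
    have h4 : NormedSpace.exp (t • X) * NormedSpace.exp (-(t • X)) = 1 := by
      have := exp_neg_mul (-(t • X))
      rwa [neg_neg] at this
    refine ⟨⟨NormedSpace.exp (t • X), NormedSpace.exp (-(t • X)), h4, h3⟩, ?_, rfl⟩
    change star (NormedSpace.exp (t • X)) * NormedSpace.exp (t • X) = 1 ∧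
      (NormedSpace.exp (t • X)).det = 1
    constructor
    · rw [star_exp_mat, star_smul_mat, h1, smul_neg]
      exact h3
    · rw [det_exp, h2]; simp
  · intro h
    have h1 : ∀ t : ℝ, star (NormedSpace.exp (t • X)) * NormedSpace.exp (t • X) = 1 ∧
        (NormedSpace.exp (t • X)).det = 1 := by
      intro t
      obtain ⟨g, hg, hgt⟩ := h t
      rw [← hgt]
      exact hg
    have hE := hasDerivAt_exp0 X
    constructor
    · have hS : HasDerivAt (fun t : ℝ => star (NormedSpace.exp (t • X))) (star X) 0 := by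
        have h2 : (fun t : ℝ => star (NormedSpace.exp (t • X))) =
            fun t : ℝ => NormedSpace.exp (t • star X) := by
          funext t
          rw [star_exp_mat, star_smul_mat]
        rw [h2]
        exact hasDerivAt_exp0 (star X)
      have h3 := hS.fun_mul hE
      have h4 : (fun t : ℝ => star (NormedSpace.exp (t • X)) * NormedSpace.exp (t • X)) =
          fun _ => 1 := by
        funext t
        exact (h1 t).1
      rw [h4] at h3
      have h5 := h3.unique (hasDerivAt_const (0 : ℝ) (1 : Mat))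
      simp at h5
      exact eq_neg_of_add_eq_zero_left h5
    · have h3 := hasDerivAt_det_exp0 X
      have h4 : (fun t : ℝ => (NormedSpace.exp (t • X)).det) = fun _ => 1 := by
        funext t
        exact (h1 t).2
      rw [h4] at h3
      exact h3.unique (hasDerivAt_const (0 : ℝ) (1 : ℂ))

theorem dg_mem_G {g : Matˣ} {A : Matrix (Fin 2) (Fin 2) ℂ} {z : ℂ} (hA : star A * A = 1)
    (hA' : A.det = 1) (hz : ‖z‖ = 1) (hg : (g : Mat) = dg A z) : g ∈ G := by
  have hzz : star z * z = 1 := by
    rw [mul_comm, Complex.star_def, Complex.mul_conj, Complex.normSq_eq_norm_sq, hz]; simp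
  have hzz' : (starRingEnd ℂ) z * z = 1 := hzz
  refine ⟨?_, ?_⟩
  · rw [hg, dg, Matrix.star_eq_conjTranspose, Matrix.fromBlocks_conjTranspose,
      Matrix.fromBlocks_multiply]
    rw [← Matrix.fromBlocks_one]
    congr 1
    · rw [Matrix.conjTranspose_smul, Matrix.smul_mul, Matrix.mul_smul, smul_smul,
        ← Matrix.star_eq_conjTranspose, hA, hzz]
      simp
    · simp
    · simp
    · simp only [Matrix.conjTranspose_zero, Matrix.zero_mul, Matrix.diagonal_conjTranspose,
        Matrix.diagonal_mul_diagonal, zero_add]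
      rw [← Matrix.diagonal_one]
      congr 1
      ext i : 1
      fin_cases i
      · simpa using hzz'
      · simp
        rw [← mul_pow, mul_comm, hzz', one_pow]
  · rw [hg, dg, Matrix.det_fromBlocks_zero₂₁, Matrix.det_smul, hA', Matrix.det_diagonal]
    simp [Fin.prod_univ_two]
    have : z ^ 2 * (z * (starRingEnd ℂ) z ^ 3) = ((starRingEnd ℂ) z * z) ^ 3 := by ring
    rw [this, hzz', one_pow]

theorem H_le : H ≤ G := by
  rintro g ⟨A, z, hA, hA', hz, hg⟩
  exact dg_mem_G hA hA' hz hg

/-- block diagonal matrices as a ring homomorphism -/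
def blk : (Matrix (Fin 2) (Fin 2) ℂ × Matrix (Fin 2) (Fin 2) ℂ) →+* Mat where
  toFun x := Matrix.fromBlocks x.1 0 0 x.2
  map_one' := Matrix.fromBlocks_one
  map_zero' := by simp
  map_add' x y := by simp [Matrix.fromBlocks_add]
  map_mul' x y := by simp [Matrix.fromBlocks_multiply]

theorem continuous_blk : Continuous blk := by
  refine continuous_matrix fun i j => ?_
  rcases i with i | i <;> rcases j with j | j
  · exact (continuous_fst.matrix_elem i j)
  · exact continuous_const
  · exact continuous_const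
  · exact (continuous_snd.matrix_elem i j)

theorem exp_blk (A D : Matrix (Fin 2) (Fin 2) ℂ) :
    NormedSpace.exp (Matrix.fromBlocks A 0 0 D) =
      Matrix.fromBlocks (NormedSpace.exp A) 0 0 (NormedSpace.exp D) := by
  have h := NormedSpace.map_exp blk continuous_blk (A, D)
  have h1 : (NormedSpace.exp (A, D)).1 = NormedSpace.exp A := Prod.fst_exp (A, D)
  have h2 : (NormedSpace.exp (A, D)).2 = NormedSpace.exp D := Prod.snd_exp (A, D)
  change Matrix.fromBlocks (NormedSpace.exp (A, D)).1 0 0 (NormedSpace.exp (A, D)).2 =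
    NormedSpace.exp (Matrix.fromBlocks A 0 0 D) at h
  rw [← h, h1, h2]

theorem exp_diag (v : Fin 2 → ℂ) :
    NormedSpace.exp (Matrix.diagonal v : Matrix (Fin 2) (Fin 2) ℂ) =
      Matrix.diagonal (fun i => Complex.exp (v i)) := by
  rw [Matrix.exp_diagonal, Pi.exp_def, Complex.exp_eq_exp_ℂ]

theorem hh_sub {X : Mat} (hX : X ∈ hh) (t : ℝ) : ∃ g ∈ H, (g : Mat) = NormedSpace.exp (t • X) := by
  obtain ⟨S, θ, h1, h2, rfl⟩ := hX
  set z : ℂ := Complex.exp (t * θ * Complex.I) with hz
  set A : Matrix (Fin 2) (Fin 2) ℂ :=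
    NormedSpace.exp (t • (S - (θ * Complex.I) • (1 : Matrix (Fin 2) (Fin 2) ℂ))) with hA
  have hS : star (S - (θ * Complex.I) • (1 : Matrix (Fin 2) (Fin 2) ℂ)) =
      -(S - (θ * Complex.I) • (1 : Matrix (Fin 2) (Fin 2) ℂ)) := by
    rw [star_sub, h1, star_smul, star_one]
    simp only [Complex.star_def, map_mul, Complex.conj_ofReal, Complex.conj_I]
    module
  have hSt : star (t • (S - (θ * Complex.I) • (1 : Matrix (Fin 2) (Fin 2) ℂ))) =
      -(t • (S - (θ * Complex.I) • (1 : Matrix (Fin 2) (Fin 2) ℂ))) := by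
    have : ∀ Y : Matrix (Fin 2) (Fin 2) ℂ, star (t • Y) = t • star Y := by
      intro Y
      ext i j
      simp [Matrix.star_apply]
    rw [this, hS, smul_neg]
  have hA1 : star A * A = 1 := by
    rw [hA, NormedSpace.star_exp, hSt]
    exact exp_neg_mul _
  have hA2 : A.det = 1 := by
    rw [hA, det_exp, Matrix.trace_sub, h2, Matrix.trace_smul, Matrix.trace_one]
    simp
    ring_nf
    simp
  have hz1 : ‖z‖ = 1 := by
    rw [hz, Complex.norm_exp]; simp
  have hzA : NormedSpace.exp (t • S) = z • A := by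
    have e1 : t • S = (Matrix.diagonal (fun _ => t * θ * Complex.I)) +
        t • (S - (θ * Complex.I) • (1 : Matrix (Fin 2) (Fin 2) ℂ)) := by
      ext i j
      fin_cases i <;> fin_cases j <;> simp <;> ring
    have e2 : (Matrix.diagonal (fun _ => t * θ * Complex.I) : Matrix (Fin 2) (Fin 2) ℂ) =
        (t * θ * Complex.I) • (1 : Matrix (Fin 2) (Fin 2) ℂ) := by
      ext i j
      fin_cases i <;> fin_cases j <;> simp
    rw [e1, NormedSpace.exp_add_of_commute, exp_diag]
    · have e3 : (Matrix.diagonal (fun _ => Complex.exp (t * θ * Complex.I)) :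
          Matrix (Fin 2) (Fin 2) ℂ) = z • (1 : Matrix (Fin 2) (Fin 2) ℂ) := by
        ext i j
        fin_cases i <;> fin_cases j <;> simp [hz]
      rw [e3, Matrix.smul_mul, one_mul]
    · rw [e2]
      exact (Commute.one_left _).smul_left _
  have key : NormedSpace.exp (t • hmk S θ) = dg A z := by
    have e1 : t • hmk S θ = Matrix.fromBlocks (t • S) 0 0
        (Matrix.diagonal ![t * θ * Complex.I, -3 * (t * θ) * Complex.I]) := by
      ext i j : 2
      rcases i with i | i <;> rcases j with j | j <;> fin_cases i <;> fin_cases j <;>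
        simp [hmk] <;> ring
    rw [e1, exp_blk, dg, hzA, exp_diag]
    congr 1
    congr 1
    ext i : 1
    fin_cases i
    · simp [hz]
    · have e2 : star z ^ 3 = Complex.exp (-3 * (t * θ) * Complex.I) := by
        rw [hz, Complex.star_def, ← Complex.exp_conj, ← Complex.exp_nat_mul]
        congr 1
        simp only [map_mul, Complex.conj_ofReal, Complex.conj_I]
        push_cast
        ring
      have e3 := e2.symm
      simp only [Complex.star_def] at e3
      simpa using e3
  have h3 : NormedSpace.exp (-(t • hmk S θ)) * NormedSpace.exp (t • hmk S θ) = 1 :=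
    exp_neg_mul _
  have h4 : NormedSpace.exp (t • hmk S θ) * NormedSpace.exp (-(t • hmk S θ)) = 1 := by
    have := exp_neg_mul (-(t • hmk S θ))
    rwa [neg_neg] at this
  exact ⟨⟨NormedSpace.exp (t • hmk S θ), NormedSpace.exp (-(t • hmk S θ)), h4, h3⟩,
    ⟨A, z, hA1, hA2, hz1, key⟩, rfl⟩

theorem hasDerivAt_entry (X : Mat) (i j : Fin 2 ⊕ Fin 2) :
    HasDerivAt (fun t : ℝ => NormedSpace.exp (t • X) i j) (X i j) 0 := by
  have h := hasDerivAt_exp0 X
  let ℓ : Mat →L[ℝ] ℂ := LinearMap.toContinuousLinearMap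
      ({ toFun := fun A : Mat => A i j, map_add' := fun _ _ => rfl,
         map_smul' := fun _ _ => rfl } : Mat →ₗ[ℝ] ℂ)
  exact ℓ.hasFDerivAt.comp_hasDerivAt (0 : ℝ) h

theorem mem_hh (X : Mat) : X ∈ hh ↔ X ∈ lieAlg H := by
  constructor
  · intro hX t
    exact hh_sub hX t
  · intro h
    have hG : X ∈ gg := by
      rw [mem_gg]
      intro t
      obtain ⟨g, hg, hgt⟩ := h t
      exact ⟨g, H_le hg, hgt⟩
    obtain ⟨hs, htr⟩ := (mem_gg_iff X).1 hG
    have hform : ∀ t : ℝ, ∃ (A : Matrix (Fin 2) (Fin 2) ℂ) (z : ℂ), ‖z‖ = 1 ∧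
        NormedSpace.exp (t • X) = dg A z := by
      intro t
      obtain ⟨g, ⟨A, z, hA, hA', hz, hg⟩, hgt⟩ := h t
      exact ⟨A, z, hz, by rw [← hgt, hg]⟩
    have hzero : ∀ i j, (∀ (A : Matrix (Fin 2) (Fin 2) ℂ) (z : ℂ), dg A z i j = 0) →
        X i j = 0 := by
      intro i j hij
      have h1 := hasDerivAt_entry X i j
      have h2 : (fun t : ℝ => NormedSpace.exp (t • X) i j) = fun _ => 0 := by
        funext t
        obtain ⟨A, z, -, he⟩ := hform t
        rw [he, hij]
      rw [h2] at h1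
      exact h1.unique (hasDerivAt_const (0 : ℝ) (0 : ℂ))
    have h12 : ∀ i j, X (Sum.inl i) (Sum.inr j) = 0 := by
      intro i j
      apply hzero
      intro A z
      rfl
    have h21 : ∀ i j, X (Sum.inr i) (Sum.inl j) = 0 := by
      intro i j
      apply hzero
      intro A z
      rfl
    have h01 : X (Sum.inr 0) (Sum.inr 1) = 0 := by
      apply hzero
      intro A z
      simp [dg]
    have h10 : X (Sum.inr 1) (Sum.inr 0) = 0 := by
      apply hzero
      intro A z
      simp [dg]
    have hd : X (Sum.inr 1) (Sum.inr 1) = 3 * star (X (Sum.inr 0) (Sum.inr 0)) := by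
      have h0 := hasDerivAt_entry X (Sum.inr 0) (Sum.inr 0)
      have h1 := hasDerivAt_entry X (Sum.inr 1) (Sum.inr 1)
      have h2 : (fun t : ℝ => NormedSpace.exp (t • X) (Sum.inr 1) (Sum.inr 1)) =
          fun t : ℝ => (star (NormedSpace.exp (t • X) (Sum.inr 0) (Sum.inr 0))) ^ 3 := by
        funext t
        obtain ⟨A, z, -, he⟩ := hform t
        rw [he]
        simp [dg]
      have h3 : HasDerivAt (fun t : ℝ => star (NormedSpace.exp (t • X) (Sum.inr 0) (Sum.inr 0)))
          (star (X (Sum.inr 0) (Sum.inr 0))) 0 := h0.star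
      have h4 := h3.fun_pow 3
      rw [h2] at h1
      have h5 := h1.unique h4
      rw [h5]
      simp
    have himag : star (X (Sum.inr 0) (Sum.inr 0)) = - X (Sum.inr 0) (Sum.inr 0) := by
      have := congrFun (congrFun hs (Sum.inr 0)) (Sum.inr 0)
      simpa [Matrix.star_apply] using this
    obtain ⟨θ, hθ⟩ : ∃ θ : ℝ, X (Sum.inr 0) (Sum.inr 0) = θ * Complex.I := by
      refine ⟨(X (Sum.inr 0) (Sum.inr 0)).im, ?_⟩
      have h1 := congrArg Complex.re himag
      simp at h1
      apply Complex.ext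
      · simp; linarith
      · simp
    refine ⟨X.toBlocks₁₁, θ, ?_, ?_, ?_⟩
    · ext i j
      have := congrFun (congrFun hs (Sum.inl i)) (Sum.inl j)
      simpa [Matrix.star_apply, Matrix.toBlocks₁₁] using this
    · have h1 : X.toBlocks₁₁.trace = - (X (Sum.inr 0) (Sum.inr 0) +
          X (Sum.inr 1) (Sum.inr 1)) := by
        rw [Matrix.trace] at htr
        rw [Fintype.sum_sum_type] at htr
        simp only [Fin.sum_univ_two, Matrix.diag_apply] at htr
        rw [Matrix.trace, Fin.sum_univ_two]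
        simp only [Matrix.diag_apply, Matrix.toBlocks₁₁, Matrix.of_apply]
        linear_combination htr
      rw [h1, hd, himag, hθ]
      ring
    · ext i j : 2
      rcases i with i | i <;> rcases j with j | j
      · rfl
      · rw [h12]; rfl
      · rw [h21]; rfl
      · fin_cases i <;> fin_cases j
        · simp [hmk, hθ]
        · simpa [hmk] using h01
        · simpa [hmk] using h10
        · have : X (Sum.inr 1) (Sum.inr 1) = -3 * θ * Complex.I := by
            rw [hd, himag, hθ]; ring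
          simpa [hmk] using this

/-! ### The projection -/

theorem mk_mem (α : ℝ) (w : ℂ) (X : Matrix (Fin 2) (Fin 2) ℂ) : mk α w X ∈ m := ⟨α, w, X, rfl⟩

/-- the projection onto `m`, as a linear map -/
def Pl : Mat →ₗ[ℝ] m where
  toFun X := ⟨mk (-((X (Sum.inr 1) (Sum.inr 1)).im + 3 * (X (Sum.inr 0) (Sum.inr 0)).im) / 6)
    (X (Sum.inr 0) (Sum.inr 1)) X.toBlocks₁₂, mk_mem _ _ _⟩
  map_add' X Y := by
    apply Subtype.ext
    simp only [Submodule.coe_add]
    ext i j : 2
    rcases i with i | i <;> rcases j with j | j <;> fin_cases i <;> fin_cases j <;>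
      simp [mk, Matrix.toBlocks₁₂] <;> ring
  map_smul' c X := by
    apply Subtype.ext
    simp only [RingHom.id_apply, Submodule.coe_smul]
    ext i j : 2
    rcases i with i | i <;> rcases j with j | j <;> fin_cases i <;> fin_cases j <;>
      simp [mk, Matrix.toBlocks₁₂] <;> ring

theorem Pl_apply (X : Mat) : (Pl X : Mat) =
    mk (-((X (Sum.inr 1) (Sum.inr 1)).im + 3 * (X (Sum.inr 0) (Sum.inr 0)).im) / 6)
    (X (Sum.inr 0) (Sum.inr 1)) X.toBlocks₁₂ := rfl

theorem gg_lie : ∀ X ∈ gg, ∀ Y ∈ gg, ⁅X, Y⁆ ∈ gg := by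
  rintro X ⟨h1, h2⟩ Y ⟨k1, k2⟩
  refine ⟨?_, ?_⟩
  · rw [Ring.lie_def, star_sub, star_mul, star_mul, h1, k1]
    noncomm_ring
  · rw [Ring.lie_def, Matrix.trace_sub, Matrix.trace_mul_comm, sub_self]

theorem m_le_gg : m ≤ gg := by
  rintro _ ⟨α, w, X, rfl⟩
  refine ⟨?_, ?_⟩
  · ext i j : 2
    rcases i with i | i <;> rcases j with j | j <;> fin_cases i <;> fin_cases j <;>
      simp [mk, Matrix.star_apply]
  · rw [Matrix.trace, Fintype.sum_sum_type]
    simp [mk, Fin.sum_univ_two]
    ring

theorem hh_le_gg : hh ≤ gg := by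
  rintro _ ⟨S, θ, h1, h2, rfl⟩
  have h00 := congrFun (congrFun h1 0) 0
  have h01 := congrFun (congrFun h1 0) 1
  have h10 := congrFun (congrFun h1 1) 0
  have h11 := congrFun (congrFun h1 1) 1
  simp only [Matrix.star_apply, Matrix.neg_apply, Complex.star_def] at h00 h01 h10 h11
  refine ⟨?_, ?_⟩
  · ext i j : 2
    rcases i with i | i <;> rcases j with j | j <;> fin_cases i <;> fin_cases j <;>
      simp [hmk, Matrix.star_apply, h00, h01, h10, h11]
  · rw [Matrix.trace, Fin.sum_univ_two] at h2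
    rw [Matrix.trace, Fintype.sum_sum_type]
    simp only [hmk, Fin.sum_univ_two, Matrix.diag_apply, Matrix.fromBlocks_apply₁₁,
      Matrix.fromBlocks_apply₂₂] at h2 ⊢
    simp
    linear_combination h2

theorem hh_lie : ∀ X ∈ hh, ∀ Y ∈ hh, ⁅X, Y⁆ ∈ hh := by
  rintro _ ⟨S, θ, h1, h2, rfl⟩ _ ⟨T, φ, k1, k2, rfl⟩
  refine ⟨S * T - T * S, 0, ?_, ?_, ?_⟩
  · rw [star_sub, star_mul, star_mul, h1, k1]
    noncomm_ring
  · rw [Matrix.trace_sub, Matrix.trace_mul_comm, sub_self]
    simp
  · rw [Ring.lie_def, hmk, hmk, hmk, Matrix.fromBlocks_multiply, Matrix.fromBlocks_multiply]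
    ext i j : 2
    rcases i with i | i <;> rcases j with j | j <;> fin_cases i <;> fin_cases j <;>
      simp [Matrix.mul_apply, Fin.sum_univ_two] <;> ring

theorem hh_ad : ∀ Y ∈ hh, ∀ z ∈ m, ⁅Y, z⁆ ∈ m := by
  rintro _ ⟨S, θ, h1, h2, rfl⟩ _ ⟨α, w, X, rfl⟩
  have h00 := congrFun (congrFun h1 0) 0
  have h01 := congrFun (congrFun h1 0) 1
  have h10 := congrFun (congrFun h1 1) 0
  have h11 := congrFun (congrFun h1 1) 1
  simp only [Matrix.star_apply, Matrix.neg_apply, Complex.star_def] at h00 h01 h10 h11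
  refine ⟨0, 4 * θ * Complex.I * w, S * X - X * Matrix.diagonal
    ![θ * Complex.I, -3 * θ * Complex.I], ?_⟩
  rw [Ring.lie_def, hmk, mk, mk, Matrix.fromBlocks_multiply, Matrix.fromBlocks_multiply]
  ext i j : 2
  rcases i with i | i <;> rcases j with j | j <;> fin_cases i <;> fin_cases j <;>
    simp [Matrix.mul_apply, Fin.sum_univ_two, Matrix.star_apply, h00, h01, h10, h11,
      Matrix.vecMul_diagonal, map_ofNat] <;> ring

theorem exists_P : ∃ P : Mat →L[ℝ] m, RedData gg hh m P := by
  refine ⟨LinearMap.toContinuousLinearMap Pl, ?_⟩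
  refine ⟨gg_lie, m_le_gg, hh_le_gg, hh_lie, ?_, ?_, ?_, hh_ad⟩
  · rintro ⟨_, ⟨α, w, X, rfl⟩⟩
    apply Subtype.ext
    simp only [LinearMap.coe_toContinuousLinearMap']
    rw [Pl_apply]
    ext i j : 2
    rcases i with i | i <;> rcases j with j | j <;> fin_cases i <;> fin_cases j <;>
      simp [mk, Matrix.toBlocks₁₂] <;> ring
  · rintro _ ⟨S, θ, h1, h2, rfl⟩
    apply Subtype.ext
    simp only [LinearMap.coe_toContinuousLinearMap']
    rw [Pl_apply]
    ext i j : 2
    rcases i with i | i <;> rcases j with j | j <;> fin_cases i <;> fin_cases j <;>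
      simp [mk, hmk, Matrix.toBlocks₁₂]
  · rintro X ⟨hs, ht⟩
    simp only [LinearMap.coe_toContinuousLinearMap']
    rw [Pl_apply]
    have hent : ∀ i j, (starRingEnd ℂ) (X j i) = - X i j := by
      intro i j
      have := congrFun (congrFun hs i) j
      simpa [Matrix.star_apply] using this
    have hre : ∀ i, (X i i).re = 0 := by
      intro i
      have := congrArg Complex.re (hent i i)
      simp at this
      linarith
    have htr : X (Sum.inl 0) (Sum.inl 0) + X (Sum.inl 1) (Sum.inl 1) +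
        (X (Sum.inr 0) (Sum.inr 0) + X (Sum.inr 1) (Sum.inr 1)) = 0 := by
      rw [Matrix.trace, Fintype.sum_sum_type] at ht
      simpa only [Fin.sum_univ_two, Matrix.diag_apply] using ht
    have himtr := congrArg Complex.im htr
    simp only [Complex.add_im, Complex.zero_im] at himtr
    refine ⟨X.toBlocks₁₁ - ((-((X (Sum.inr 1) (Sum.inr 1)).im +
      3 * (X (Sum.inr 0) (Sum.inr 0)).im) / 6 : ℝ) * Complex.I) • 1,
      -(X (Sum.inr 1) (Sum.inr 1)).im / 3, ?_, ?_, ?_⟩
    · ext i j
      have := hent (Sum.inl i) (Sum.inl j)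
      fin_cases i <;> fin_cases j <;>
        simp [Matrix.star_apply, Matrix.toBlocks₁₁] at this ⊢ <;> rw [this] <;> ring
    · rw [Matrix.trace_sub, Matrix.trace_smul, Matrix.trace_one, Matrix.trace, Fin.sum_univ_two]
      simp only [Matrix.diag_apply, Matrix.toBlocks₁₁, Matrix.of_apply]
      apply Complex.ext
      · simp [hre]
      · simp
        linarith
    · ext i j : 2
      rcases i with i | i <;> rcases j with j | j
      · simp [mk, hmk, Matrix.toBlocks₁₁]
      · simp [mk, hmk, Matrix.toBlocks₁₂]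
      · have := hent (Sum.inr i) (Sum.inl j)
        simp [mk, hmk, Matrix.toBlocks₁₂, Matrix.star_apply, this]
      · have h3 := hent (Sum.inr 1) (Sum.inr 0)
        have h4 := hre (Sum.inr 0)
        have h5 := hre (Sum.inr 1)
        fin_cases i <;> fin_cases j
        · apply Complex.ext
          · simp [mk, hmk, h4]
          · simp [mk, hmk]
            ring
        · simp [mk, hmk]
        · simp [mk, hmk, h3]
        · apply Complex.ext
          · simp [mk, hmk, h5]
          · simp [mk, hmk]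
            ring

theorem conj_mk (A : Matrix (Fin 2) (Fin 2) ℂ) (z : ℂ) (hA : star A * A = 1) (hz : ‖z‖ = 1)
    (α : ℝ) (w : ℂ) (X : Matrix (Fin 2) (Fin 2) ℂ) :
    dg A z * mk α w X * star (dg A z) = mk α (z ^ 4 * w)
      ((z • A) * X * Matrix.diagonal ![star z, z ^ 3]) := by
  have hzz : z * (starRingEnd ℂ) z = 1 := by
    rw [Complex.mul_conj, Complex.normSq_eq_norm_sq, hz]; simp
  have hAA : A * star A = 1 := mul_eq_one_comm.mp hA
  have hst : star (dg A z) = Matrix.fromBlocks (star z • star A) 0 0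
      (Matrix.diagonal ![star z, z ^ 3]) := by
    rw [dg, Matrix.star_eq_conjTranspose, Matrix.fromBlocks_conjTranspose,
      Matrix.conjTranspose_smul, Matrix.diagonal_conjTranspose, Matrix.conjTranspose_zero,
      ← Matrix.star_eq_conjTranspose]
    congr 1
    congr 1
    ext i : 1
    fin_cases i <;> simp
  rw [hst, dg, mk, mk, Matrix.fromBlocks_multiply, Matrix.fromBlocks_multiply]
  simp only [Matrix.mul_zero, Matrix.zero_mul, add_zero, zero_add]
  congr 1
  · simp only [Matrix.smul_mul, Matrix.mul_smul, smul_smul, mul_one]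
    rw [hAA]
    congr 1
    simp only [Complex.star_def]
    linear_combination (α * Complex.I) * hzz
  · rw [star_mul, star_mul, star_smul, Matrix.star_eq_conjTranspose (Matrix.diagonal _),
      Matrix.diagonal_conjTranspose, mul_neg, neg_mul, Matrix.mul_assoc]
    congr 3
    ext i : 1
    fin_cases i <;> simp
  · ext i j
    fin_cases i <;> fin_cases j <;>
      simp [Matrix.mul_apply, Fin.sum_univ_two]
    · linear_combination (2 * α * Complex.I) * hzz
    · ring
    · ring

theorem adj_eq {k : Matˣ} {A : Matrix (Fin 2) (Fin 2) ℂ} {z : ℂ} (hA : star A * A = 1)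
    (hA' : A.det = 1) (hz : ‖z‖ = 1) (hk : (k : Mat) = dg A z) (Z : Mat) :
    (k : Mat) * Z * ((k⁻¹ : Matˣ) : Mat) = dg A z * Z * star (dg A z) := by
  have h1 := (dg_mem_G hA hA' hz hk).1
  have h2 : star (k : Mat) = ((k⁻¹ : Matˣ) : Mat) := by
    rw [← Units.mul_eq_one_iff_eq_inv]; exact h1
  rw [← h2, hk]

theorem Ad_m : ∀ k ∈ H, ∀ Z ∈ m, Adj k Z ∈ m := by
  rintro k ⟨A, z, hA, hA', hz, hk⟩ _ ⟨α, w, X, rfl⟩
  rw [Adj, adj_eq hA hA' hz hk, conj_mk A z hA hz]
  exact mk_mem _ _ _

end SU4

end Pool.Agent.Helper93.Fin
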