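import Pool.Agent.Helper93.Fin.Work
import Pool.Agent.Helper93.Fin.Spaces

/-!
# `det (exp (t X)) = exp (t tr X)` and derivatives of one parameter groups
-/

set_option backward.isDefEq.respectTransparency false

noncomputable section

namespace Pool.Agent.Helper93.Fin

open scoped ContDiff Matrix

attribute [local instance] Matrix.linftyOpNormedRing Matrix.linftyOpNormedAlgebra

namespace SU4

section gen

variable {n : Type*} [Fintype n] [DecidableEq n]

theorem hasDerivAt_exp0 (X : Matrix n n ℂ) :
    HasDerivAt (fun t : ℝ => NormedSpace.exp (t • X)) X 0 := by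
  have h := hasDerivAt_exp_smul_const (𝕂 := ℝ) X (0 : ℝ)
  simpa using h

theorem exp_neg_mul (X : Matrix n n ℂ) : NormedSpace.exp (-X) * NormedSpace.exp X = 1 := by
  rw [← NormedSpace.exp_add_of_commute ((Commute.refl X).neg_left)]
  simp

theorem differentiable_det : Differentiable ℝ (fun A : Matrix n n ℂ => A.det) := by
  have : (fun A : Matrix n n ℂ => A.det) = fun A : Matrix n n ℂ =>
      ∑ s : Equiv.Perm n, ((Equiv.Perm.sign s : ℤ) : ℂ) * ∏ i, A (s i) i := by
    funext A
    rw [Matrix.det_apply']
  rw [this]
  have hent : ∀ i j, Differentiable ℝ (fun A : Matrix n n ℂ => A i j) := by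
    intro i j
    exact ((LinearMap.toContinuousLinearMap
      ({ toFun := fun A : Matrix n n ℂ => A i j, map_add' := fun _ _ => rfl,
         map_smul' := fun _ _ => rfl } : Matrix n n ℂ →ₗ[ℝ] ℂ))).differentiable
  refine Differentiable.fun_sum fun s _ => ?_
  refine Differentiable.const_mul ?_ _
  have h1 : Differentiable ℝ (fun A : Matrix n n ℂ => ∏ i ∈ (Finset.univ : Finset n),
      A (s i) i) := by
    intro A
    exact (HasFDerivAt.finsetProd (fun i _ => (hent (s i) i A).hasFDerivAt)).differentiableAt
  exact h1

theorem hasDerivAt_det_exp0 (X : Matrix n n ℂ) :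
    HasDerivAt (fun t : ℝ => (NormedSpace.exp (t • X)).det) X.trace 0 := by
  have h1 : fderiv ℝ (fun A : Matrix n n ℂ => A.det) 1 X = X.trace := by
    have h2 : HasDerivAt (fun t : ℝ => (1 + t • X : Matrix n n ℂ).det)
        (fderiv ℝ (fun A : Matrix n n ℂ => A.det) 1 X) 0 := by
      have h3 : HasDerivAt (fun t : ℝ => (1 + t • X : Matrix n n ℂ)) X 0 := by
        have := ((hasDerivAt_id (0 : ℝ)).smul_const X).const_add (1 : Matrix n n ℂ)
        simpa using this
      have h4 : HasFDerivAt (fun A : Matrix n n ℂ => A.det) (fderiv ℝ (fun A : Matrix n n ℂ => A.det) 1)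
          (1 + (0 : ℝ) • X) := by
        simpa using (differentiable_det 1).hasFDerivAt
      exact h4.comp_hasDerivAt 0 h3
    have h5 : HasDerivAt (fun t : ℝ => (1 + t • X : Matrix n n ℂ).det) X.trace 0 := by
      have h6 : (fun t : ℝ => (1 + t • X : Matrix n n ℂ).det) = fun t : ℝ => (1 : ℂ) + X.trace * (t : ℂ) +
          (Matrix.det (1 + (Polynomial.X : Polynomial ℂ) • X.map Polynomial.C)).divX.divX.eval
            (t : ℂ) * (t : ℂ) ^ 2 := by
        funext t
        rw [← Matrix.det_one_add_smul]
        rfl
      rw [h6]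
      have hid : HasDerivAt (fun t : ℝ => (t : ℂ)) 1 0 := Complex.ofRealCLM.hasDerivAt
      have ha : HasDerivAt (fun t : ℝ => (1 : ℂ) + X.trace * (t : ℂ)) X.trace 0 := by
        have := (hid.const_mul X.trace).const_add 1
        simpa using this
      set p := (Matrix.det (1 + (Polynomial.X : Polynomial ℂ) • X.map Polynomial.C)).divX.divX
      have hb : HasDerivAt (fun t : ℝ => p.eval (t : ℂ)) (p.derivative.eval 0) 0 := by
        have h7 : HasDerivAt (fun z : ℂ => p.eval z) (p.derivative.eval ((0 : ℝ) : ℂ))
            ((0 : ℝ) : ℂ) := p.hasDerivAt _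
        simpa using h7.comp_ofReal
      have hc : HasDerivAt (fun t : ℝ => (t : ℂ) ^ 2) 0 0 := by
        have := hid.fun_pow 2
        simpa using this
      have := ha.fun_add (hb.fun_mul hc)
      simpa using this
    exact h2.unique h5
  have h4 : HasFDerivAt (fun A : Matrix n n ℂ => A.det) (fderiv ℝ (fun A : Matrix n n ℂ => A.det) 1)
      (NormedSpace.exp ((0 : ℝ) • X)) := by
    simpa using (differentiable_det 1).hasFDerivAt
  have h5 := h4.comp_hasDerivAt 0 (hasDerivAt_exp0 X)
  rw [h1] at h5
  exact h5

theorem det_exp (X : Matrix n n ℂ) : ∀ t : ℝ, (NormedSpace.exp (t • X)).det = Complex.exp (t * X.trace) := by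
  set f : ℝ → ℂ := fun t => (NormedSpace.exp (t • X)).det with hf
  have hadd : ∀ s t, f (s + t) = f s * f t := by
    intro s t
    simp only [hf]
    rw [add_smul, NormedSpace.exp_add_of_commute, Matrix.det_mul]
    exact ((Commute.refl X).smul_left s).smul_right t
  have hder : ∀ t, HasDerivAt f (f t * X.trace) t := by
    intro t
    have h1 : HasDerivAt (fun s => f (s - t)) X.trace t := by
      have h2 : HasDerivAt f X.trace (t - t) := by
        rw [sub_self]; exact hasDerivAt_det_exp0 X
      exact h2.comp_sub_const t t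
    have h3 := h1.const_mul (f t)
    have h4 : (fun s => f t * f (s - t)) = f := by
      funext s
      rw [← hadd]
      congr 1
      ring
    rwa [h4] at h3
  have hg : ∀ t, HasDerivAt (fun t : ℝ => f t * Complex.exp (-(t * X.trace))) 0 t := by
    intro t
    have hid : HasDerivAt (fun t : ℝ => (t : ℂ)) 1 t := Complex.ofRealCLM.hasDerivAt
    have h1 : HasDerivAt (fun t : ℝ => -((t : ℂ) * X.trace)) (-X.trace) t := by
      have := (hid.mul_const X.trace).fun_neg
      simpa using this
    have h2 := (hder t).mul h1.cexp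
    convert! h2 using 1
    ring
  have hconst : ∀ t : ℝ, f t * Complex.exp (-(t * X.trace)) = 1 := by
    intro t
    have := is_const_of_deriv_eq_zero (f := fun t : ℝ => f t * Complex.exp (-(t * X.trace)))
      (fun t => (hg t).differentiableAt) (fun t => (hg t).deriv) t 0
    rw [this]
    simp [hf]
  intro t
  have h1 := hconst t
  have h2 : Complex.exp (-(t * X.trace)) * Complex.exp (t * X.trace) = 1 := by
    rw [← Complex.exp_add]; simp
  calc f t = f t * (Complex.exp (-(t * X.trace)) * Complex.exp (t * X.trace)) := by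
        rw [h2, mul_one]
    _ = Complex.exp (t * X.trace) := by rw [← mul_assoc, h1, one_mul]

end gen

end SU4

end Pool.Agent.Helper93.Fin
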